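import Pool.Agent.L0h21.CK.Stm

set_option autoImplicit false

/-! # Project CK: the gradient bound after a change of coordinates (module gradphi) -/

namespace Pool.Agent.L0h19.CK

open Pool.Agent.L0h21.CK
open MvPolynomial

section gradphi

variable {p : ℕ} [hp : Fact p.Prime] {V : Type}

/-- the chain rule -/
lemma chain_rule' {K : Type} [CommRing K] [Fintype V] (φ : V → MvPolynomial V K) (i : V)
    (u : MvPolynomial V K) :
    pderiv i (aeval φ u) = ∑ v, pderiv i (φ v) * aeval φ (pderiv v u) := by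
  classical
  induction u using MvPolynomial.induction_on with
  | C a => simp [algebraMap_eq]
  | add f g hf hg =>
    rw [map_add, map_add, hf, hg, ← Finset.sum_add_distrib]
    refine Finset.sum_congr rfl fun v _ => ?_
    rw [map_add, map_add]
    ring
  | mul_X f j hf =>
    rw [map_mul, aeval_X, Derivation.leibniz, hf, smul_eq_mul, smul_eq_mul, Finset.mul_sum]
    have h1 : ∀ v, pderiv i (φ v) * aeval φ (pderiv v (f * X j)) =
        φ j * (pderiv i (φ v) * aeval φ (pderiv v f)) +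
          (if v = j then pderiv i (φ v) * aeval φ f else 0) := by
      intro v
      rw [Derivation.leibniz, smul_eq_mul, smul_eq_mul, map_add, map_mul, map_mul, aeval_X,
        pderiv_X]
      by_cases hv : v = j
      · subst hv
        simp
        ring
      · rw [if_neg hv, Pi.single_eq_of_ne (fun h => hv h.symm), map_zero]
        ring
    simp only [h1, Finset.sum_add_distrib, Finset.sum_ite_eq', Finset.mem_univ, if_true]
    ring

omit hp in
lemma inv_pos' [Fact p.Prime] : (0 : ℝ) < (p : ℝ)⁻¹ := by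
  have := (Fact.out : p.Prime).pos
  positivity

lemma inv_le_half : (p : ℝ)⁻¹ ≤ 1 / 2 := by
  have h : (2 : ℝ) ≤ p := by exact_mod_cast hp.out.two_le
  rw [one_div]
  exact inv_anti₀ (by norm_num) h

/-- polynomials of order at least `k` are small -/
lemma ord_bound (h : MvPolynomial V ℚ_[p]) : ∃ A : ℝ, 0 ≤ A ∧ ∀ k : ℕ, OrdP k h →
    ∀ (x : V → ℤ_[p]) (r : ℝ), 0 ≤ r → r ≤ 1 → (∀ i, ‖x i‖ ≤ r) →
      ‖eval (fun j => (x j : ℚ_[p])) h‖ ≤ A * r ^ k := by
  classical
  refine ⟨∑ d ∈ h.support, ‖coeff d h‖, Finset.sum_nonneg fun _ _ => norm_nonneg _, ?_⟩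
  intro k hk x r hr0 hr1 hx
  rw [eval_eq]
  refine (norm_sum_le _ _).trans ?_
  rw [Finset.sum_mul]
  refine Finset.sum_le_sum fun d hd => ?_
  rw [norm_mul]
  refine mul_le_mul_of_nonneg_left ?_ (norm_nonneg _)
  have hdk : k ≤ d.degree := by
    by_contra hcon
    exact (mem_support_iff.1 hd) (hk d (by omega))
  rw [norm_prod]
  have h1 : ∏ i ∈ d.support, ‖((x i : ℚ_[p])) ^ d i‖ ≤ ∏ i ∈ d.support, r ^ d i := by
    refine Finset.prod_le_prod (fun _ _ => norm_nonneg _) fun i _ => ?_
    rw [norm_pow, PadicInt.padic_norm_e_of_padicInt]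
    exact pow_le_pow_left₀ (norm_nonneg _) (hx i) _
  refine h1.trans ?_
  rw [Finset.prod_pow_eq_pow_sum]
  exact pow_le_pow_of_le_one hr0 hr1 hdk

lemma ord_pderiv {k : ℕ} {h : MvPolynomial V ℚ_[p]} (hk : OrdP (k + 1) h) (i : V) :
    OrdP k (pderiv i h) := by
  classical
  intro d hd
  rw [coeff_pderiv, hk _ (by
    rw [map_add, Finsupp.degree_single]
    omega), zero_mul]

lemma padic_sum {ι : Type} (s : Finset ι) (f : ι → ℚ_[p]) {B : ℝ} (hB : 0 ≤ B)
    (h : ∀ i ∈ s, ‖f i‖ ≤ B) : ‖∑ i ∈ s, f i‖ ≤ B := by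
  classical
  induction s using Finset.induction_on with
  | empty => simpa using hB
  | insert a s ha ih =>
    rw [Finset.sum_insert ha]
    refine (Padic.nonarchimedean _ _).trans (max_le (h a (Finset.mem_insert_self a s)) ?_)
    exact ih fun i hi => h i (Finset.mem_insert_of_mem hi)

theorem gradphi_aux [Fintype V] (F : MvPolynomial V ℚ_[p]) (M : ℕ) (φ : V → MvPolynomial V ℚ_[p])
    (hφ : ∀ v, OrdP 2 (φ v - X v)) (hF : GB F M) : GB (aeval φ F) M := by
  classical
  obtain ⟨c, k0, hc⟩ := hF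
  have hp0 : (0 : ℝ) < (p : ℝ)⁻¹ := inv_pos'
  have hp2 : (p : ℝ)⁻¹ ≤ 1 / 2 := inv_le_half
  choose A hA0 hA using fun v => ord_bound (φ v - X v)
  choose A' hA0' hA' using fun q : V × V => ord_bound (pderiv q.1 (φ q.2 - X q.2))
  set T : ℝ := ∑ v, A v + ∑ q, A' q with hT
  have hTA : ∀ v, A v ≤ T := fun v => by
    have h1 : A v ≤ ∑ v, A v :=
      Finset.single_le_sum (f := A) (fun v _ => hA0 v) (Finset.mem_univ v)
    have h2 : 0 ≤ ∑ q, A' q := Finset.sum_nonneg fun q _ => hA0' q
    linarith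
  have hTA' : ∀ q, A' q ≤ T := fun q => by
    have h1 : A' q ≤ ∑ q, A' q :=
      Finset.single_le_sum (f := A') (fun v _ => hA0' v) (Finset.mem_univ q)
    have h2 : 0 ≤ ∑ v, A v := Finset.sum_nonneg fun q _ => hA0 q
    linarith
  have hT0 : 0 ≤ T := add_nonneg (Finset.sum_nonneg fun q _ => hA0 q)
    (Finset.sum_nonneg fun q _ => hA0' q)
  obtain ⟨n, hn⟩ : ∃ n : ℕ, ((p : ℝ)⁻¹) ^ n < (2 * (T + 1))⁻¹ :=
    exists_pow_lt_of_lt_one (by positivity) (by linarith)
  refine ⟨c, k0 + n, ?_⟩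
  intro x hx v
  -- the size of `x`
  obtain ⟨w0, -, hw0⟩ := Finset.exists_max_image (Finset.univ : Finset V) (fun i => ‖x i‖)
    ⟨v, Finset.mem_univ v⟩
  set r : ℝ := ‖x w0‖ with hr
  have hr0 : 0 ≤ r := norm_nonneg _
  have hxr : ∀ i, ‖x i‖ ≤ r := fun i => hw0 i (Finset.mem_univ i)
  have hrk : r ≤ ((p : ℝ)⁻¹) ^ (k0 + n) := hx w0
  have hr1 : r ≤ 1 := hrk.trans (pow_le_one₀ hp0.le (by linarith))
  have hrn : T * r ≤ 1 / 2 := by
    have h1 : r ≤ (2 * (T + 1))⁻¹ := by
      refine hrk.trans (le_trans ?_ hn.le)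
      exact pow_le_pow_of_le_one hp0.le (by linarith) (by omega)
    calc T * r ≤ (T + 1) * (2 * (T + 1))⁻¹ := by
          apply mul_le_mul (by linarith) h1 hr0 (by linarith)
      _ = 1 / 2 := by
          have : T + 1 ≠ 0 := by linarith
          field_simp
  -- the point `y = φ(x)`
  set xq : V → ℚ_[p] := fun j => (x j : ℚ_[p]) with hxq
  have hd1 : ∀ l, ‖eval xq (φ l) - xq l‖ ≤ r / 2 := by
    intro l
    have h1 := hA l 2 (hφ l) x r hr0 hr1 hxr
    rw [map_sub, eval_X] at h1
    refine h1.trans ?_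
    calc A l * r ^ 2 ≤ T * r ^ 2 := by
          have := hTA l
          gcongr
      _ = (T * r) * r := by ring
      _ ≤ 1 / 2 * r := by gcongr
      _ = r / 2 := by ring
  have hyr : ∀ l, ‖eval xq (φ l)‖ ≤ r := by
    intro l
    have e : eval xq (φ l) = (eval xq (φ l) - xq l) + xq l := by ring
    rw [e]
    refine (Padic.nonarchimedean _ _).trans (max_le ((hd1 l).trans (by linarith)) ?_)
    rw [hxq]
    simp only []
    rw [PadicInt.padic_norm_e_of_padicInt]
    exact hxr l
  set y : V → ℤ_[p] := fun l => ⟨eval xq (φ l), (hyr l).trans hr1⟩ with hy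
  have hyv : ∀ l, ((y l : ℤ_[p]) : ℚ_[p]) = eval xq (φ l) := fun l => rfl
  have hyn : ∀ l, ‖y l‖ ≤ r := by
    intro l
    rw [← PadicInt.padic_norm_e_of_padicInt, hyv]
    exact hyr l
  have hyw : r ≤ ‖y w0‖ := by
    rcases hr0.eq_or_lt with h0 | h0
    · rw [← h0]; exact norm_nonneg _
    · by_contra hcon
      push Not at hcon
      have h1 : ‖xq w0‖ = r := by
        rw [hxq]
        simp only []
        rw [PadicInt.padic_norm_e_of_padicInt]
      have h2 : ‖xq w0‖ < r := by
        have e : xq w0 = eval xq (φ w0) + -(eval xq (φ w0) - xq w0) := by ring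
        rw [e]
        refine lt_of_le_of_lt (Padic.nonarchimedean _ _) (max_lt ?_ ?_)
        · rw [← hyv, PadicInt.padic_norm_e_of_padicInt]
          exact hcon
        · rw [norm_neg]
          exact lt_of_le_of_lt (hd1 w0) (by linarith)
      rw [h1] at h2
      exact lt_irrefl _ h2
  obtain ⟨l, hl⟩ := hc y (fun i => (hyn i).trans (hrk.trans (by
    exact pow_le_pow_of_le_one hp0.le (by linarith) (by omega)))) w0
  -- the derivatives
  set g : V → ℚ_[p] := fun l => eval (fun j => ((y j : ℤ_[p]) : ℚ_[p])) (pderiv l F) with hg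
  obtain ⟨i, -, hi⟩ := Finset.exists_max_image (Finset.univ : Finset V) (fun i => ‖g i‖)
    ⟨v, Finset.mem_univ v⟩
  refine ⟨i, ?_⟩
  have hlow : ((p : ℝ)⁻¹) ^ c * ‖x v‖ ^ M ≤ ‖g i‖ := by
    calc ((p : ℝ)⁻¹) ^ c * ‖x v‖ ^ M ≤ ((p : ℝ)⁻¹) ^ c * ‖y w0‖ ^ M := by
          have := (hxr v).trans hyw
          gcongr
      _ ≤ ‖g l‖ := hl
      _ ≤ ‖g i‖ := hi l (Finset.mem_univ l)
  have hcr : eval xq (pderiv i (aeval φ F)) = ∑ l, eval xq (pderiv i (φ l)) * g l := by
    rw [chain_rule', map_sum]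
    refine Finset.sum_congr rfl fun l _ => ?_
    rw [map_mul]
    congr 1
    have h1 : ∀ u : MvPolynomial V ℚ_[p], eval xq (aeval φ u) =
        eval (fun j => ((y j : ℤ_[p]) : ℚ_[p])) u := by
      intro u
      induction u using MvPolynomial.induction_on with
      | C a => simp [algebraMap_eq]
      | add f g hf hg => rw [map_add, map_add, map_add, hf, hg]
      | mul_X f j hf => rw [map_mul, map_mul, map_mul, hf, aeval_X, eval_X, hyv]
    exact h1 _
  have hsplit : eval xq (pderiv i (aeval φ F)) = g i +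
      ∑ l, eval xq (pderiv i (φ l - X l)) * g l := by
    rw [hcr]
    have h1 : ∀ l, eval xq (pderiv i (φ l)) * g l = eval xq (pderiv i (φ l - X l)) * g l +
        (if l = i then g l else 0) := by
      intro l
      rw [map_sub, map_sub, pderiv_X]
      by_cases hli : l = i
      · subst hli
        simp
        ring
      · rw [if_neg hli, Pi.single_eq_of_ne hli]
        simp
    simp only [h1, Finset.sum_add_distrib, Finset.sum_ite_eq', Finset.mem_univ, if_true]
    ring
  have hsmall : ‖∑ l, eval xq (pderiv i (φ l - X l)) * g l‖ ≤ 1 / 2 * ‖g i‖ := by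
    refine padic_sum _ _ (by positivity) fun l _ => ?_
    rw [norm_mul]
    have h1 := hA' (i, l) 1 (ord_pderiv (hφ l) i) x r hr0 hr1 hxr
    have h2 : ‖eval xq (pderiv i (φ l - X l))‖ ≤ 1 / 2 := by
      refine h1.trans (le_trans ?_ hrn)
      rw [pow_one]
      have := hTA' (i, l)
      gcongr
    have h3 := hi l (Finset.mem_univ l)
    exact mul_le_mul h2 h3 (norm_nonneg _) (by norm_num)
  have hfin : ‖g i‖ ≤ ‖eval xq (pderiv i (aeval φ F))‖ := by
    rcases (norm_nonneg (g i)).eq_or_lt with h0 | h0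
    · rw [← h0]; exact norm_nonneg _
    · by_contra hcon
      push Not at hcon
      have h2 : ‖g i‖ < ‖g i‖ := by
        have e : g i = eval xq (pderiv i (aeval φ F)) +
            -(∑ l, eval xq (pderiv i (φ l - X l)) * g l) := by rw [hsplit]; ring
        nth_rw 1 [e]
        refine lt_of_le_of_lt (Padic.nonarchimedean _ _) (max_lt hcon ?_)
        rw [norm_neg]
        exact lt_of_le_of_lt hsmall (by linarith)
      exact lt_irrefl _ h2
  exact hlow.trans hfin

end gradphi

/-- Module gradphi -/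
theorem gradphi : S_gradphi := fun _ _ _ _ F M φ hφ hF => gradphi_aux F M φ hφ hF

end Pool.Agent.L0h19.CK
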